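import Pool.Agent.Lib.MP_87f021_gt.Space

/-!
A ZFC example of a dense-in-itself Hausdorff space with a base of clopen sets which is closed
under finite intersections and cannot be partitioned into two bases.
-/

namespace Pool.Agent.Results.MP_87f021_gt.NonResolvableBase

open TopologicalSpace

theorem result :
    ∃ (X : Type) (_ : TopologicalSpace X) (B : Set (Set X)),
      Nonempty X ∧ T1Space X ∧ T2Space X ∧ (∀ x : X, ¬ IsOpen ({x} : Set X)) ∧
      IsTopologicalBasis B ∧ (∀ U ∈ B, IsClopen U) ∧ (∀ U ∈ B, ∀ V ∈ B, U ∩ V ∈ B) ∧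
      ∀ B₀ B₁ : Set (Set X), B₀ ∪ B₁ = B → Disjoint B₀ B₁ →
        ¬ (IsTopologicalBasis B₀ ∧ IsTopologicalBasis B₁) := by
  have := Pool.Agent.Lib.MP_87f021_gt.t2
  exact ⟨Pool.Agent.Lib.MP_87f021_gt.X, inferInstance, Pool.Agent.Lib.MP_87f021_gt.B,
    Pool.Agent.Lib.MP_87f021_gt.nonempty_X, inferInstance, this,
    Pool.Agent.Lib.MP_87f021_gt.no_isolated, Pool.Agent.Lib.MP_87f021_gt.isBasis,
    Pool.Agent.Lib.MP_87f021_gt.isClopen_B, Pool.Agent.Lib.MP_87f021_gt.inter_mem_B,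
    Pool.Agent.Lib.MP_87f021_gt.not_resolvable⟩

end Pool.Agent.Results.MP_87f021_gt.NonResolvableBase
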